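import Pool.Agent.H773.CS.Stm

set_option autoImplicit false

open Finset

namespace Pool.Agent.H782.CS

open Pool.Agent.H773.CS

variable {n q : ℕ}

lemma isBit_iff (s : Sym q) : IsBit s ↔ s = .bit true ∨ s = .bit false := by
  constructor
  · rintro ⟨b, rfl⟩
    cases b
    · right; rfl
    · left; rfl
  · rintro (h | h)
    · exact ⟨_, h⟩
    · exact ⟨_, h⟩

lemma not_bit_lab {s : Sym q} (h : IsLab s) : ¬ IsBit s := by
  rintro ⟨b, rfl⟩
  rcases h with ⟨t, ht⟩ | ⟨c, hc⟩
  · exact absurd ht (by simp)
  · exact absurd hc (by simp)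

lemma not_bit_bot (j : Bool) : ¬ IsBit (.bot j : Sym q) := by
  rintro ⟨b, hb⟩
  exact absurd hb (by simp)

lemma ps_surj (k : Fin ((n+1)*10)) : ∃ i r, k = ps (n := n) i r :=
  ⟨(finProdFinEquiv.symm k).1, (finProdFinEquiv.symm k).2, by
    unfold ps
    rw [Prod.mk.eta, Equiv.apply_symm_apply]⟩

lemma bv_eq (s : Sym q) : (bv s : ℝ) = if s = .bit true then 1 else 0 := by
  by_cases h : s = .bit true
  · subst h; simp [bv]
  · rw [if_neg h]
    unfold bv
    split
    · exact absurd rfl h
    · simp

/-- the kinds of satisfying assignments -/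
lemma sat_kind {j : Bool} {w : Fin (n+1) → Bool × Bool} {a : Fin ((n+1)*10) → Sym q} (h : SatF n j w a)
    (p : Fin ((n+1)*10)) (hp : IsBit (a p)) : ∀ i, BitOK (w i) (fun r => a (ps i r)) := by
  rcases h with h | h | h
  · exact h
  · exfalso
    obtain ⟨i, r, rfl⟩ := ps_surj p
    exact not_bit_lab ((h i).1 r) hp
  · exfalso
    obtain ⟨i, r, rfl⟩ := ps_surj p
    rw [h i r] at hp
    exact not_bit_bot _ hp

lemma bit_all {w : Fin (n+1) → Bool × Bool} {a : Fin ((n+1)*10) → Sym q}
    (h : ∀ i, BitOK (w i) (fun r => a (ps i r))) (p : Fin ((n+1)*10)) : IsBit (a p) := by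
  obtain ⟨i, r, rfl⟩ := ps_surj p
  exact (h i).1 r

/-- colouring of all the levels from a colouring of the small ones -/
noncomputable def colo {N : ℕ} (hq : 0 < q) (c : Fin N → Fin q) (l : ℕ) : Fin q :=
  if h : l < N then c ⟨l, h⟩ else ⟨0, hq⟩

section

variable {I : Inst (FF n q)} {x : I.V → Sym q → ℝ} {z : Fin I.len → (Fin ((n+1)*10) → Sym q) → ℝ}

lemma bm_eq (hF : LPFeasible I x z) (j : Fin I.len) (p : Fin ((n+1)*10)) :
    x (I.e j p) (.bit true) + x (I.e j p) (.bit false) =
      ∑ a : Fin ((n+1)*10) → Sym q, if (a p = .bit true ∨ a p = .bit false) then z j a else 0 := by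
  rw [← hF.marg j p, ← hF.marg j p, ← Finset.sum_add_distrib]
  refine Finset.sum_congr rfl fun a _ => ?_
  by_cases h1 : a p = .bit true
  · have h2 : a p ≠ .bit false := by rw [h1]; simp
    simp [h1]
  · by_cases h2 : a p = .bit false
    · simp [h2]
    · simp [h1, h2]

lemma bm_sat (hF : LPFeasible I x z) (j : Fin I.len) {b : Bool} {w : Fin (n+1) → Bool × Bool}
    (hz : ∀ a, z j a ≠ 0 → SatF n b w a) (p p' : Fin ((n+1)*10)) :
    x (I.e j p) (.bit true) + x (I.e j p) (.bit false) =
      x (I.e j p') (.bit true) + x (I.e j p') (.bit false) := by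
  rw [bm_eq hF, bm_eq hF]
  refine Finset.sum_congr rfl fun a _ => ?_
  by_cases h0 : z j a = 0
  · simp [h0]
  have h1 := hz a h0
  have h2 : (a p = .bit true ∨ a p = .bit false) ↔ (a p' = .bit true ∨ a p' = .bit false) := by
    rw [← isBit_iff, ← isBit_iff]
    exact ⟨fun h => bit_all (sat_kind h1 p h) p', fun h => bit_all (sat_kind h1 p' h) p⟩
  by_cases h3 : (a p = .bit true ∨ a p = .bit false)
  · rw [if_pos h3, if_pos (h2.1 h3)]
  · rw [if_neg h3, if_neg (fun h => h3 (h2.2 h))]

lemma supp_bit (hF : LPFeasible I x z) (j : Fin I.len) {b : Bool} {w : Fin (n+1) → Bool × Bool}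
    (hz : ∀ a, z j a ≠ 0 → SatF n b w a) (p : Fin ((n+1)*10))
    (hb : x (I.e j p) (.bit true) + x (I.e j p) (.bit false) = 1) (a : Fin ((n+1)*10) → Sym q)
    (ha : z j a ≠ 0) : ∀ i, BitOK (w i) (fun r => a (ps i r)) := by
  refine sat_kind (hz a ha) p ?_
  rw [isBit_iff]
  by_contra hn
  rw [bm_eq hF] at hb
  have h1 := hF.z_sum j
  have h2 : ∑ a : Fin ((n+1)*10) → Sym q, (z j a - if (a p = .bit true ∨ a p = .bit false) then z j a else 0) = 0 := by
    rw [Finset.sum_sub_distrib, h1, hb, sub_self]
  have h3 : ∀ a ∈ (Finset.univ : Finset (Fin ((n+1)*10) → Sym q)),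
      0 ≤ z j a - if (a p = .bit true ∨ a p = .bit false) then z j a else 0 := by
    intro a _
    split
    · simp
    · simpa using hF.z_nonneg j a
  have h4 := (Finset.sum_eq_zero_iff_of_nonneg h3).1 h2 a (Finset.mem_univ a)
  rw [if_neg hn, sub_zero] at h4
  exact ha h4

lemma xt_eq (hF : LPFeasible I x z) (j : Fin I.len) (p : Fin ((n+1)*10)) :
    x (I.e j p) (.bit true) = ∑ a : Fin ((n+1)*10) → Sym q, z j a * (bv (a p) : ℝ) := by
  rw [← hF.marg j p]
  refine Finset.sum_congr rfl fun a _ => ?_
  rw [bv_eq]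
  split <;> simp

lemma lin (hF : LPFeasible I x z) (j : Fin I.len) {b : Bool} {w : Fin (n+1) → Bool × Bool}
    (hz : ∀ a, z j a ≠ 0 → SatF n b w a)
    (hb : ∀ p, x (I.e j p) (.bit true) + x (I.e j p) (.bit false) = 1) (p0 p1 p2 : Fin ((n+1)*10)) (m : ℤ)
    (h : ∀ a : Fin ((n+1)*10) → Sym q, (∀ i, BitOK (w i) (fun r => a (ps i r))) →
      bv (a p2) = bv (a p1) + bv (a p0) - m) :
    x (I.e j p2) (.bit true) = x (I.e j p1) (.bit true) + x (I.e j p0) (.bit true) - m := by
  rw [xt_eq hF, xt_eq hF, xt_eq hF]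
  have h1 : (m : ℝ) = ∑ a : Fin ((n+1)*10) → Sym q, z j a * (m : ℝ) := by
    rw [← Finset.sum_mul, hF.z_sum j, one_mul]
  rw [h1, ← Finset.sum_add_distrib, ← Finset.sum_sub_distrib]
  refine Finset.sum_congr rfl fun a _ => ?_
  by_cases h0 : z j a = 0
  · simp [h0]
  have h2 := h a (supp_bit hF j hz p0 (hb p0) a h0)
  rw [h2]
  push_cast
  ring

end

theorem t_exact (hs : S_supp) (hpi : S_pi) (hlab : S_lab) (hcol : S_col) : S_exact := by
  classical
  intro n q hq I hI
  have hq0 : 0 < q := by
    have : 0 < 10 * (10 * (n+1))^2 := by positivity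
    omega
  have := I.fin
  obtain ⟨x, z, hF, hsup⟩ := hs I hI
  obtain ⟨g, hg⟩ := hpi
  set Q : I.V → ℚ := fun v => g (x v (.bit true)) with hQ
  obtain ⟨N, hN⟩ : ∃ N : ℕ, ∀ v, lev (Q v) < N :=
    ⟨(Finset.univ.sup fun v => lev (Q v)) + 1, fun v =>
      Nat.lt_succ_of_le (Finset.le_sup (f := fun v => lev (Q v)) (Finset.mem_univ v))⟩
  set pure : I.V → Prop := fun v => x v (.bit true) + x v (.bit false) = 1 with hpure
  set t1 : (Fin N → Fin q) → Bool → I.V → Sym q := fun c i v =>
    if pure v then labl (colo hq0 c) (Q v) else .bot i with ht1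
  set t2 : Bool → I.V → Sym q := fun i v => if pure v then .bit false else .bot i with ht2
  have hbd : BddAbove (Set.range fun τ : I.V → Sym q => valAt I τ) := (Set.finite_range _).bddAbove
  have hle : ∀ τ : I.V → Sym q, valAt I τ ≤ val I := fun τ => le_ciSup hbd τ
  set ind : Fin I.len → (I.V → Sym q) → ℝ := fun j τ =>
    if I.f j (fun p => τ (I.e j p)) = true then (1 : ℝ) else 0 with hind
  have hind0 : ∀ j τ, 0 ≤ ind j τ := by
    intro j τ
    simp only [hind]
    split <;> norm_num
  have hM : (Fintype.card (Fin N → Fin q) : ℝ) = (q : ℝ) ^ N := by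
    simp
  -- the main estimate for one constraint
  have key : ∀ j : Fin I.len, 9 / 5 * (q : ℝ) ^ N ≤
      ∑ c : Fin N → Fin q, ∑ i : Bool, (ind j (t1 c i) + ind j (t2 i)) := by
    intro j
    have hqN : 0 ≤ (q : ℝ) ^ N := by positivity
    have htwo : (∀ c : Fin N → Fin q, 2 ≤ ∑ i : Bool, (ind j (t1 c i) + ind j (t2 i))) →
        9 / 5 * (q : ℝ) ^ N ≤ ∑ c : Fin N → Fin q, ∑ i : Bool, (ind j (t1 c i) + ind j (t2 i)) := by
      intro h
      calc 9 / 5 * (q : ℝ) ^ N ≤ 2 * (q : ℝ) ^ N := by nlinarith
        _ = ∑ c : Fin N → Fin q, (2 : ℝ) := by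
          rw [Finset.sum_const, Finset.card_univ, nsmul_eq_mul, hM]; ring
        _ ≤ _ := Finset.sum_le_sum fun c _ => h c
    rcases I.mem j with ⟨b, w, hf⟩ | hf
    · -- block constraints
      have hz : ∀ a, z j a ≠ 0 → SatF n b w a := by
        intro a ha
        have h1 := hsup j a ha
        rw [hf] at h1
        unfold fF at h1
        exact of_decide_eq_true h1
      by_cases hp : pure (I.e j (ps 0 0))
      · -- pure case
        have hall : ∀ p, x (I.e j p) (.bit true) + x (I.e j p) (.bit false) = 1 := fun p =>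
          (bm_sat hF j hz p (ps 0 0)).trans hp
        -- linear relations
        have hgi : ∀ m : ℤ, g (m : ℝ) = (m : ℚ) := by
          intro m
          have : (m : ℝ) = (m : ℚ) • (1 : ℝ) := by
            rw [Rat.smul_def]; push_cast; ring
          rw [this, map_smul, hg]
          simp
        have hlin : ∀ (p0 p1 p2 : Fin ((n+1)*10)) (m : ℤ),
            (∀ a : Fin ((n+1)*10) → Sym q, (∀ i, BitOK (w i) (fun r => a (ps i r))) →
              bv (a p2) = bv (a p1) + bv (a p0) - m) →
            Q (I.e j p2) = Q (I.e j p1) + Q (I.e j p0) - m := by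
          intro p0 p1 p2 m h
          have h1 := lin hF j hz hall p0 p1 p2 m h
          simp only [hQ]
          rw [h1, map_sub, map_add, hgi]
        set T : Finset (Fin N) := Finset.univ.image fun p : Fin ((n+1)*10) =>
          (⟨lev (Q (I.e j p)), hN _⟩ : Fin N) with hT
        have hTc : T.card ≤ 10 * (n+1) := by
          refine Finset.card_image_le.trans ?_
          rw [Finset.card_univ, Fintype.card_fin]
          omega
        have hcard := hcol N q (10 * (n+1)) T hTc hq0
        set Gd := (Finset.univ.filter (fun c : Fin N → Fin q => ∀ i ∈ T, ∀ j ∈ T, c i = c j → i = j)) with hGd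
        have hgood : ∀ c ∈ Gd, ∀ i : Bool, ind j (t1 c i) = 1 := by
          intro c hc i
          simp only [hind]
          rw [if_pos]
          rw [hf]
          unfold fF
          refine decide_eq_true (Or.inr (Or.inl fun bl => ?_))
          have hinj : ∀ l l' : Fin ((n+1)*10), colo hq0 c (lev (Q (I.e j l))) = colo hq0 c (lev (Q (I.e j l'))) →
              lev (Q (I.e j l)) = lev (Q (I.e j l')) := by
            intro l l' h
            unfold colo at h
            rw [dif_pos (hN _), dif_pos (hN _)] at h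
            have h2 := (Finset.mem_filter.1 hc).2 _ (Finset.mem_image_of_mem _ (Finset.mem_univ l)) _
              (Finset.mem_image_of_mem _ (Finset.mem_univ l')) h
            exact congrArg Fin.val h2
          have h1 : (fun r => (fun p => t1 c i (I.e j p)) (ps bl r)) =
              fun r => labl (colo hq0 c) (Q (I.e j (ps bl r))) := by
            funext r
            simp only [ht1]
            rw [if_pos (show pure (I.e j (ps bl r)) from hall _)]
          rw [h1]
          refine hlab q (fun r => Q (I.e j (ps bl r))) (w bl) (colo hq0 c) (fun r s h => hinj _ _ h) ?_ ?_ ?_ ?_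
          · have := hlin (ps bl 0) (ps bl 1) (ps bl 2) (if (w bl).1 = true then 1 else 0)
              (fun a ha => (ha bl).2.1)
            simpa using this
          · have := hlin (ps bl 0) (ps bl 3) (ps bl 4) (if (w bl).2 = true then 1 else 0)
              (fun a ha => (ha bl).2.2.1)
            simpa using this
          · have := hlin (ps bl 6) (ps bl 5) (ps bl 9) 0
              (fun a ha => by have := (ha bl).2.2.2.1; simpa using this)
            simpa using this
          · have := hlin (ps bl 8) (ps bl 7) (ps bl 9) 1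
              (fun a ha => (ha bl).2.2.2.2)
            simpa using this
        have hK : ((10 * (n+1) : ℕ) : ℝ)^2 / q ≤ 1 / 10 := by
          rw [div_le_iff₀ (by exact_mod_cast hq0)]
          have : (10 * (10 * (n+1))^2 : ℝ) ≤ q := by exact_mod_cast hq
          push_cast
          linarith
        calc 9 / 5 * (q : ℝ) ^ N ≤ 2 * ((1 - ((10 * (n+1) : ℕ) : ℝ)^2 / q) * (q : ℝ)^N) := by nlinarith
          _ ≤ 2 * (Gd.card : ℝ) := by linarith
          _ = ∑ c ∈ Gd, (2 : ℝ) := by rw [Finset.sum_const, nsmul_eq_mul]; ring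
          _ ≤ ∑ c ∈ Gd, ∑ i : Bool, (ind j (t1 c i) + ind j (t2 i)) := by
            refine Finset.sum_le_sum fun c hc => ?_
            rw [Fintype.sum_bool, hgood c hc true, hgood c hc false]
            linarith [hind0 j (t2 true), hind0 j (t2 false)]
          _ ≤ _ := Finset.sum_le_univ_sum_of_nonneg fun c =>
            Finset.sum_nonneg fun i _ => add_nonneg (hind0 _ _) (hind0 _ _)
      · -- non-pure case
        have hall : ∀ p, ¬ pure (I.e j p) := fun p h =>
          hp ((bm_sat hF j hz (ps 0 0) p).trans h)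
        apply htwo
        intro c
        have e1 : ind j (t1 c b) = 1 := by
          simp only [hind]
          rw [if_pos]
          rw [hf]
          unfold fF
          refine decide_eq_true (Or.inr (Or.inr fun i r => ?_))
          simp only [ht1]
          rw [if_neg (hall _)]
        have e2 : ind j (t2 b) = 1 := by
          simp only [hind]
          rw [if_pos]
          rw [hf]
          unfold fF
          refine decide_eq_true (Or.inr (Or.inr fun i r => ?_))
          simp only [ht2]
          rw [if_neg (hall _)]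
        calc (2 : ℝ) = ind j (t1 c b) + ind j (t2 b) := by rw [e1, e2]; norm_num
          _ ≤ _ := Finset.single_le_sum (f := fun i : Bool => ind j (t1 c i) + ind j (t2 i))
            (fun i _ => add_nonneg (hind0 _ _) (hind0 _ _)) (Finset.mem_univ b)
    · -- the unary constraint
      apply htwo
      intro c
      have hp : pure (I.e j (ps 0 0)) := by
        show x (I.e j (ps 0 0)) (.bit true) + x (I.e j (ps 0 0)) (.bit false) = 1
        rw [bm_eq hF, ← hF.z_sum j]
        refine Finset.sum_congr rfl fun a _ => ?_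
        by_cases h0 : z j a = 0
        · simp [h0]
        have h1 := hsup j a h0
        rw [hf] at h1
        unfold fU at h1
        have h2 : SatU n a := of_decide_eq_true h1
        rw [if_pos ((isBit_iff _).1 h2)]
      have e2 : ∀ i, ind j (t2 i) = 1 := by
        intro i
        simp only [hind]
        rw [if_pos]
        rw [hf]
        unfold fU
        refine decide_eq_true ?_
        show IsBit _
        simp only [ht2]
        rw [if_pos hp]
        exact ⟨false, rfl⟩
      rw [Fintype.sum_bool, e2, e2]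
      linarith [hind0 j (t1 c true), hind0 j (t1 c false)]
  -- averaging
  have hlen : (0 : ℝ) < I.len := by exact_mod_cast I.pos
  have hsum : ∑ c : Fin N → Fin q, ∑ i : Bool, (valAt I (t1 c i) + valAt I (t2 i)) =
      (∑ j : Fin I.len, ∑ c : Fin N → Fin q, ∑ i : Bool, (ind j (t1 c i) + ind j (t2 i))) / I.len := by
    have hv : ∀ τ : I.V → Sym q, valAt I τ = (∑ j : Fin I.len, ind j τ) / I.len := fun τ => rfl
    have h1 : ∀ (c : Fin N → Fin q) (i : Bool), valAt I (t1 c i) + valAt I (t2 i) =
        (∑ j : Fin I.len, (ind j (t1 c i) + ind j (t2 i))) / I.len := by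
      intro c i
      rw [hv, hv, ← add_div, ← Finset.sum_add_distrib]
    simp_rw [h1, ← Finset.sum_div]
    congr 1
    have h2 : ∀ c : Fin N → Fin q, ∑ i : Bool, ∑ j : Fin I.len, (ind j (t1 c i) + ind j (t2 i)) =
        ∑ j : Fin I.len, ∑ i : Bool, (ind j (t1 c i) + ind j (t2 i)) := fun c => Finset.sum_comm
    simp_rw [h2]
    exact Finset.sum_comm
  have hlow : 9 / 5 * (q : ℝ) ^ N ≤ ∑ c : Fin N → Fin q, ∑ i : Bool, (valAt I (t1 c i) + valAt I (t2 i)) := by
    rw [hsum, le_div_iff₀ hlen]
    calc 9 / 5 * (q : ℝ) ^ N * I.len = ∑ j : Fin I.len, (9 / 5 * (q : ℝ) ^ N) := by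
          rw [Finset.sum_const, Finset.card_univ, Fintype.card_fin, nsmul_eq_mul]; ring
      _ ≤ _ := Finset.sum_le_sum fun j _ => key j
  have hup : ∑ c : Fin N → Fin q, ∑ i : Bool, (valAt I (t1 c i) + valAt I (t2 i)) ≤ 4 * (q : ℝ) ^ N * val I := by
    calc ∑ c : Fin N → Fin q, ∑ i : Bool, (valAt I (t1 c i) + valAt I (t2 i)) ≤
        ∑ c : Fin N → Fin q, ∑ i : Bool, (2 * val I) :=
          Finset.sum_le_sum fun c _ => Finset.sum_le_sum fun i _ => by linarith [hle (t1 c i), hle (t2 i)]
      _ = 4 * (q : ℝ) ^ N * val I := by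
        rw [Finset.sum_const, Finset.sum_const, Finset.card_univ, Finset.card_univ, nsmul_eq_mul, nsmul_eq_mul, hM,
          Fintype.card_bool]
        push_cast
        ring
  have hqN : (0 : ℝ) < (q : ℝ) ^ N := by positivity
  nlinarith [hlow.trans hup]

end Pool.Agent.H782.CS
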